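import Pool.Agent.Y34.EX.Non
import Pool.Agent.Y34.EX.Exp

set_option autoImplicit false

/-!
# Infinite elementary abelian groups of automorphisms: which members are exponential

`IsExponential` is the definition of the starting file `NotExponential`. In the variables
`x, y, z` put `F = z x + y ^ p - y`. For `c ∈ ZMod p` and a polynomial `Q` in `z` and `F` put
`P = c + z Q` and `W = Q - z ^ (p - 1) Q ^ p`. The automorphism `Θ (c, Q)` is
`x ↦ x + W`, `y ↦ y + P`, all other variables fixed. (In Lean `k[X][X]` is the ring of the `Q`:
the inner variable is `z` and the outer variable is `F`.)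
-/

namespace Pool.Agent.Results.MP_038775_ag.ElementaryAbelianFamily

open Polynomial Pool.Agent.Y34.EX
open Pool.Agent.Results.MP_038775_ag.NotExponential (IsExponential)

/-- **For every prime `p`, every field `k` of characteristic `p` and every `n ≥ 3`** the elementary
abelian group `ZMod p × k[z, F]` acts faithfully on `k[x_1, ..., x_n]`, all elements different from
the identity have order `p`, and `Θ (c, Q)` is exponential if and only if `c = 0` or `Q` does not
involve `F`. -/
theorem result (p : ℕ) [Fact p.Prime] (k : Type*) [Field k] [CharP k p] (n : ℕ) (hn : 3 ≤ n) :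
    ∃ Θ : Multiplicative (ZMod p × k[X][X]) →*
        (MvPolynomial (Fin n) k ≃ₐ[k] MvPolynomial (Fin n) k),
      Function.Injective Θ ∧ (∀ g, g ≠ 1 → orderOf (Θ g) = p) ∧
      ∀ (c : ZMod p) (Q : k[X][X]),
        IsExponential (Θ (Multiplicative.ofAdd (c, Q))) ↔ c = 0 ∨ Q.natDegree = 0 := by
  have h01 : (⟨0, by omega⟩ : Fin n) ≠ ⟨1, by omega⟩ := by simp
  have h02 : (⟨0, by omega⟩ : Fin n) ≠ ⟨2, by omega⟩ := by simp
  have h12 : (⟨1, by omega⟩ : Fin n) ≠ ⟨2, by omega⟩ := by simp
  refine ⟨Theta p k h01 h02 h12, Theta_injective p k h01 h02 h12, fun g hg => ?_, fun c Q => ?_⟩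
  · apply orderOf_eq_prime
    · rw [← map_pow]
      have h1 : g ^ p = 1 := by
        have h2 : p • g.toAdd = 0 := by
          have : CharP k[X][X] p := inferInstance
          refine Prod.ext ?_ ?_
          · change p • g.toAdd.1 = 0
            rw [nsmul_eq_mul, CharP.cast_eq_zero, zero_mul]
          · change p • g.toAdd.2 = 0
            rw [nsmul_eq_mul, CharP.cast_eq_zero, zero_mul]
        exact h2
      rw [h1, map_one]
    · intro h
      exact hg (Theta_injective p k h01 h02 h12 (by rw [h, map_one]))
  · constructor
    · intro h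
      by_contra hcon
      push Not at hcon
      exact not_exponential p k h01 h02 h12 hcon.1 hcon.2 h
    · rintro (rfl | hQ)
      · exact exponential_zero p k h01 h02 h12 Q
      · exact exponential_const p k h01 h02 h12 c hQ

end Pool.Agent.Results.MP_038775_ag.ElementaryAbelianFamily
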